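import Mathlib
import Pool.Agent.KS6_75.AT.Main

/-!
# One-cycles over finite fields and the Chow groups of smooth affine threefolds

All Chow groups are with rational coefficients, all varieties over finite fields of characteristic `p`
(or over global fields of characteristic `p`). Let `U` be a smooth affine threefold. Then
`H⁴(U_k̄, ℚ_ℓ(2)) = 0` (Artin), so Q1 for `U` and `i = 2` says that `CH²(U) = CH_1(U)` is zero.

1. Every smooth projective threefold `X` has, after a finite extension of the constants, smooth ample
   surfaces `H` with `Pic(H) = Pic(X)` (good surfaces).
2. If `H` is good then `CH_1(X ∖ H)` is isomorphic to the group of the numerically trivial one-cycles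
   on `X`.
3. These are equivalent: Q1 for all smooth affine threefolds and `i = 2`, that is `CH_1(U) = 0` for all
   of them; the same for the complements of smooth ample surfaces; the same for the complements of good
   surfaces; rational and numerical equivalence agree for one-cycles on all smooth projective threefolds;
   the same on all smooth projective varieties; for all threefolds `X` and smooth ample `H` the product
   with `H` is a bijection (a surjection) `Pic(X) → CH_1(X)`; `dim CH_1(X) ≤ dim Pic(X)` for all
   threefolds.
4. They imply that the cycle maps `CH^(n-1)(Y) ⊗ ℚ_ℓ → H^(2n-2)(Y_k̄, ℚ_ℓ(n-1))^G` are injective for all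
   smooth projective varieties `Y` of dimension `n`, that the Albanese kernels of all smooth projective
   surfaces over global fields of characteristic `p` are zero, and that `CH_0(S) = 0` for all smooth
   affine surfaces over such fields. The Tate conjecture is not used.

For (1) consider a Lefschetz pencil. A group of isometries of a nondegenerate quadratic space which
contains the reflections in a spanning set of vectors contains an element without nonzero fixed vectors
(`exists_no_fixed`: multiply with reflections, each of which can be chosen to lower the dimension of the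
fixed space). By Chebotarev's theorem some Frobenius element has no nonzero fixed vectors in the vanishing
cohomology, so the divisors on this member of the pencil lift to `X` by theorems of Katz-Messing and
Morrow.
-/

set_option autoImplicit false

namespace Pool.Agent.Results.MP_81632f_ag.AffineThreefolds

open Pool.Agent.KS6_75.AT

/-- **Q1 for smooth affine threefolds in codimension two is equivalent to the equality of rational and
numerical equivalence for one-cycles on all smooth projective varieties over finite fields of
characteristic `p`.** -/
theorem result {ℓ : ℕ} [Fact ℓ.Prime] (C : Cycles ℓ) (hC : C.IsKnown) :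
    (∀ X, ∃ X', C.T.Ext X X' ∧ ∃ H : C.T.Sec X', C.T.Good H) ∧
    (∀ X (H : C.T.Sec X), C.T.Good H → Nonempty (C.O.CH (C.O.compl X H) ≃ₗ[ℚ] C.T.Num X)) ∧
    List.TFAE [
      ∀ U, C.O.QOne U,
      ∀ U, Subsingleton (C.O.CH U),
      ∀ X (H : C.T.Sec X), Subsingleton (C.O.CH (C.O.compl X H)),
      ∀ X (H : C.T.Sec X), C.T.Good H → Subsingleton (C.O.CH (C.O.compl X H)),
      ∀ X, C.T.Num X = ⊥,
      ∀ Y, C.W.Num Y = ⊥,
      ∀ X (H : C.T.Sec X), Function.Bijective (C.T.lef X H),
      ∀ X (H : C.T.Sec X), Function.Surjective (C.T.lef X H),
      ∀ X, Module.rank ℚ (C.T.CH X) ≤ Module.rank ℚ (C.T.Pic X)] ∧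
    ((∀ U, C.O.QOne U) →
      (∀ Y, C.W.ClInjective Y) ∧ (∀ S, C.G.albKer S = ⊥) ∧
        ∀ S, Subsingleton (C.G.CHA S)) := by
  refine ⟨exists_good hC, good_iso hC, tfae hC, fun h => ?_⟩
  have h5 : ∀ X, C.T.Num X = ⊥ := ((tfae hC).out 0 4).1 h
  have h6 : ∀ Y, C.W.Num Y = ⊥ := ((tfae hC).out 0 5).1 h
  exact ⟨clW_of_num hC h6, albKer_of_num hC h5, affineSurface_of_num hC h5⟩

end Pool.Agent.Results.MP_81632f_ag.AffineThreefolds
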