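import Mathlib
import Pool.Agent.KS6_5.OG.Good
import Pool.Agent.KS6_5.OG.Elliptic
import Pool.Graph.R_pool_sql_team_seeded_2aa45f1a.Q64.L.Thms

/-!
# Statement B for the products of open varieties with ordinary elliptic curves and abelian varieties
over different real fields

Let `q = p ^ a`, and let `P k` (`k` in an arbitrary set, possibly infinite) be polynomials with
integral coefficients with the following properties (`IsOnePlaceFamily`), for instance
characteristic polynomials of Frobenius of abelian varieties over the field with `q` elements:

* their roots `z` have the absolute value `√q` and the slopes `1 / 2 + δ k` and `1 / 2 - δ k` only,
  with `δ k > 0`; ordinary abelian varieties have `δ k = 1 / 2`;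
* for some `m > 0` the number `z ^ m + (q / z) ^ m` is contained in a Galois extension of `ℚ` with
  one place above `p` and with cyclic Sylow `2`-subgroups of the Galois group: for example in a
  cyclic field in which `p` is inert or totally ramified. **This field may be different for
  different roots `z` and different `k`**, and nothing is assumed on its degree;
* for `δ k ≠ δ l` no power of `z ^ 2 / q` is a power of `z' ^ 2 / q`, for the roots `z` of `P k` and `z'`
  of `P l` (no condition if all `δ k` are equal, for instance in the ordinary case);
* `z z' / q` is not a root of unity different from one, for all roots `z`, `z'` of the `P k` (this is
  true after a finite extension of the base field).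

**The second part of the theorem: `P k = X ^ 2 - b k X + q` is such a family if `p` does not divide
`b k` and the imaginary quadratic fields `ℚ(√(b k ^ 2 - 4 q))` are different from each other.** So up
to isogeny and finite extensions of the base field `A` can be any product of any number of ordinary
elliptic curves. Other examples are ordinary abelian surfaces with real multiplication by quadratic
fields in which `p` does not split, ordinary abelian varieties such that the centre of the
endomorphism algebra over an algebraic closure is a quadratic extension of a cyclic field in which
`p` is inert, and all products of such abelian varieties and elliptic curves.

Let `A` be an abelian variety over the field with `Q = q ^ s` elements which is isogenous to a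
product of powers of abelian varieties coming from the field with `q` elements, with characteristic
polynomials `P k` (for `s = 1`: any product of powers of the abelian varieties), and let `X` be **any** smooth variety over the field with `Q` elements, proper or
not, such that

* the eigenvalues `ρ` of Frobenius on the `ℓ`-adic cohomology of `X` satisfy the
  following condition (`NarrowUnrelated`), where `w ≥ 0` is **any** real number:

  `SlopesInInterval`: the slopes of `ρ` with respect to `q` lie in an interval of length `w` (which
  depends on `ρ`); and

  `NoShortRelation`: there is no relation `(z 1 ⋯ z n) ^ m * ρ ^ N = q ^ c`, `m, N > 0`, with `n > 0`
  roots `z i` of polynomials `P (k i)` no two of which have the product `q`, and with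
  `∑ (2 δ (k i)) ^ 2 ≤ w ^ 2`. If `A` is ordinary the last condition is `n ≤ w ^ 2`.

  If `w < 2 δ k` for all `k` there are no such products and `NoShortRelation` is no condition (third
  part of the theorem): if `A` is a product of ordinary elliptic curves all `X` are allowed such
  that the slopes of each eigenvalue and its conjugates lie in an interval of length less than one,
  without any condition on fields. If `A` is ordinary and `w = 1`, as for curves, `K3` surfaces of
  height two and so on, only `n = 1` remains: no eigenvalue of Frobenius of `X` is an eigenvalue of
  Frobenius of `A`, up to roots of unity and powers of `q` (for a curve: no factor of `A` is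
  isogenous to a factor of the Jacobian, over an algebraic closure). **In general, although `A` can
  have any number of factors, only products of at most `w ^ 2` of the numbers `z i` have to be
  compared with the eigenvalues of `X`**; and `w` is at most the dimension of `X`.
* the Frobenius endomorphism of `X` satisfies on each group of the Chow groups of `A × X` a nonzero
  polynomial with rational coefficients whose roots have the same property. For instance this is so
  if the motive of `X` is built from finite-dimensional motives (Kimura) of smooth projective
  varieties which satisfy the first condition.

**For every `i` the statement `B^i(A × X)` (the cycle map is bijective onto the Galois invariants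
of `H^(2 i)`, and the eigenvalue `1` of Frobenius is semisimple) is true if and only if the
statements `B^(i - k)(X)`, `0 ≤ k ≤ dim A`, are true** (`BReduces`). The Chow groups of `A × X` and
the Galois invariants satisfy a Kunneth formula, with finitely many products of divisor classes on
`A`. No case of the conjectures is assumed. In particular `B^i(A)` holds for all `i` (`X` a point).
The semisimplicity statement of Q2 for `A × X` and all `i` is equivalent to that for `X` and all `i`,
without the second condition (`SemisimpleReduces`).

What is used of `A` are known theorems (`IsAbelian`): `H(A)` is generated by `H^1`, Frobenius is
diagonalizable on `H^1` (Weil), the theorem of Tate on divisors, and the nilpotence of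
homologically trivial correspondences (Kimura). The theories relative to `X` are modelled by
`RelData`, with the formal properties in `IsTheory`: degrees, products with classes on `A`,
push-forward to `X`, the projection formula, the operation of the correspondences of `A` and of the
Frobenius endomorphism of `X`. The group of bidegree `(i, j)` is `H^i(X, j)`, resp.
`H^i(A × X, j)`; the Frobenius endomorphism of `A × X` is the multiplication by `Q ^ j` on the Chow
groups (`IsPure`) and on the Galois invariants of the `ℓ`-adic cohomology groups (`InvN`, `InvM`);
the generalized eigenvectors are in `GenN`, `GenM`.

Relation to other results. In the starting files (`AllCMTypesTimes`, `NewtonStrata`,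
`SmallSlopeDeviation` and others on this problem) the factors of `A` are almost all CM types, almost
all abelian varieties, or have absolutely irreducible and mutually unrelated fields, and `X` is
unrelated to them. In `OnePlaceTimes` (helper74, this problem; arithmetic by helper5) all real
multiplications are contained in **one** field `F` with one place above `p` in question (so `F = ℚ`
for elliptic curves), and each eigenvalue of `X` does not generate the fields over `F`, or has slopes
in an interval of length less than one (`A` ordinary). Here the real fields are different, and in
general no field containing two of them has only one place above `p`: there is no group of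
automorphisms which acts on all numbers by signs. For example `A` can be any product of ordinary
elliptic curves and of ordinary abelian surfaces with real multiplications by different quadratic
fields in which `p` is inert. The condition on `X` is also different: the slopes are arbitrary, and
`NoShortRelation` is not only sufficient but also necessary for the absence of relations, as all
relations are short.

The proof. (1) The logarithms of the absolute values of the conjugates of `x = z ^ 2 / q` define a
function `F₁` with values `± 1` on the Galois group `G` of the algebraic numbers. If the field `F` of
`x` has one place above `p` then `G = D H₁`, where `F₁` is invariant on the left by the decomposition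
group `D`, and multiplied by a sign under the right translations by the elements of the normal
subgroup `H₁` of the automorphisms over `F`. Let `F₂`, `H₂` belong to another number `y`. Then
`B(h', h) = P(h' h) P(h') P(h) P(1)`, with `P = F₁ F₂`, is given by the commutator of `H₁` and `H₂`. It
is a bilinear form on `H₁ / (H₁ ∩ H₂)` with `B(h, h) = 1`, unless `P` changes its sign under a right
translation by a square; so it is trivial if the Sylow `2`-subgroups are cyclic. Hence `P` is
constant or changes its sign under some right translation: the functions of slopes of `x` and `y`
are proportional or orthogonal to each other. If they are proportional, the numbers are equal or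
inverse to each other up to roots of unity. (2) Suppose that the product of `ρ` and of `n` roots
`z i`, no two of them with product `q`, is a power of `q`, up to a root of unity. Then the mean
square of the sum of the functions of slopes of the `z i ^ 2 / q` is at least `∑ (2 δ (k i)) ^ 2`, and
at most `w ^ 2`, as this sum is also, up to a constant, twice the function of slopes of `ρ`. So the
relation is short, and excluded. (3) The
deduction of the theorem from the statement on relations is the one of the starting files
(`AllCMTypesTimesOpen`): on the generalized eigenspace of the Frobenius endomorphism of `A × X` for
`Q ^ j`, the correspondence on `A` given by the sum of the products of dual classes of divisor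
products acts as the identity. So the theory of `A × X` is, on this part, the direct sum of copies
of the one of `X` (Kunneth formula), compatibly with the cycle maps.
-/

set_option autoImplicit false

namespace Pool.Agent.Results.MP_81632f_ag.DifferentFieldsTimes

open Polynomial Pool.Agent.KS6_5.OC Pool.Agent.KS6_5.OG Pool.Agent.Y1.CT
  Pool.Agent.Q64.L

/-- **The statement `B^i` (the cycle map is bijective onto the Frobenius invariants and the eigenvalue
is semisimple) holds for `A × X` if and only if `B^(i - k)` holds for `X` for all
`0 ≤ k ≤ dim A`**, for the abelian varieties `A` with two slopes
`1 / 2 ± δ k` whose real fields, which may be different, have one place above `p`, for instance for all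
products of ordinary elliptic curves, and all smooth `X`, proper or not, whose
Frobenius eigenvalues have slopes in an interval of length `w` and no relations with products of
few eigenvalues of Frobenius of `A` (none at all are to be considered for `w < 2 δ k`). -/
theorem result :
    (∀ (p : ℕ) [Fact p.Prime] (a : ℕ), 0 < a → ∀ (κ : Type) (δ : κ → ℝ) (P : κ → ℤ[X]),
      IsOnePlaceFamily p a δ P → ∀ w : ℝ, 0 ≤ w →
      BReduces (NarrowUnrelated p a w δ P) (p ^ a) P ∧
        SemisimpleReduces (NarrowUnrelated p a w δ P) (p ^ a) P) ∧
    (∀ (p : ℕ) [Fact p.Prime] (a : ℕ), 0 < a → ∀ (κ : Type) (b : κ → ℤ),
      (∀ k, ¬ (p : ℤ) ∣ b k) → (∀ k, b k ^ 2 < 4 * (p ^ a : ℕ)) →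
      (∀ k l, b k = b l ∨ ¬ IsSquare ((b k ^ 2 - 4 * (p ^ a : ℕ)) * (b l ^ 2 - 4 * (p ^ a : ℕ)))) →
      IsOnePlaceFamily p a (fun _ : κ => 1 / 2)
        (fun k => X ^ 2 - C (b k) * X + C (((p ^ a : ℕ) : ℤ)))) ∧
    (∀ (q : ℕ) (κ : Type) (δ : κ → ℝ) (P : κ → ℤ[X]) (w : ℝ), 0 ≤ w → (∀ k, w < 2 * δ k) →
      ∀ ρ : AlgebraicClosure ℚ, NoShortRelation q w δ P ρ) := by
  refine ⟨?_, ?_, ?_⟩
  · intro p _ a ha κ δ P H w hw
    have hq : 1 < p ^ a := Nat.one_lt_pow ha.ne' (Fact.out : p.Prime).one_lt
    exact ⟨bReduces hq (good_family ha H hw), semisimpleReduces hq (good_family ha H hw)⟩
  · intro p _ a ha κ b hb hd h
    exact ell_family ha b hb hd h
  · intro q κ δ P w hw h ρ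
    exact noShortRelation_of_lt hw h ρ

end Pool.Agent.Results.MP_81632f_ag.DifferentFieldsTimes
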