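import Mathlib
import Pool.Agent.KS6_74.OP.Good
import Pool.Agent.KS6_5.SP.Place
import Pool.Graph.R_pool_sql_team_seeded_2aa45f1a.Q64.L.Thms

/-!
# Statement B for the products of open varieties with abelian varieties whose Frobenius numbers are
supported at one place

Let `F` be a number field, `q = p ^ a`, and let `π i` (`i` in a finite set) be Weil numbers for `q`
of weight one in CM fields `E i`, all of whose powers generate `E i` (`IsWeilOne`), such that

* `F` contains all conjugates of the maximal totally real subfields of the `E i` (`ContainsReal`);
* each conjugate of `α i = π i ^ 2 / q` (`angle`) is a unit at all places above `p` except for those
  above **one** place of `F` (`AtOnePlace`). This is true for all numbers if `F` has only one place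
  above `p`, for example if `p` is inert or totally ramified in `F` (second part of the theorem). It
  is also true, for all `p`, if `α i` is a unit except at the two places above one place of degree
  one of a Galois real field;
* no power of a conjugate of `α i` is equal to a power of a conjugate of `α j`, for `i ≠ j`
  (`Incommensurable`). (Otherwise one omits one of the `π i`, up to isogeny and base change.)

Nothing is assumed about the Galois groups, the fields may be equal to each other, and all slopes
occur; the slopes may be equal to `1 / 2` at some, but not all, places. Let `f i` be monic
polynomials whose complex roots are conjugates of `π i` (`IsPolyOf`), for instance the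
characteristic polynomials of Frobenius of the abelian varieties in the isogeny classes of the
`π i` over the field with `q` elements. Let `A` be an abelian variety over the field with
`Q = q ^ s` elements which is isogenous to a product of powers of abelian varieties coming from the
field with `q` elements, with characteristic polynomials `f i` (for `s = 1`: any product of powers of
simple abelian varieties with Weil numbers `π i`), and let `X` be **any** smooth variety over the field with `Q` elements, proper or
not, such that

* the eigenvalues `ρ` of Frobenius on the `ℓ`-adic cohomology of `X` satisfy for all `i` one of the two conditions
  (`ForeignOrSmallRoots`):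

  `NotOver`: for some `m > 0` the field `F(ρ ^ m)` contains no conjugate of `E i`; **or**

  `SmallerSlopes`: there is a number `c` with `|log |ρ| - c| < |log |α|| / 2` for all `p`-adic
  absolute values of the conjugates of `ρ` and all absolute values `≠ 1` of the conjugates `α` of
  `α i`. For `s = 1` this means `|v - c'| < |v' - 1 / 2|` for all slopes `v` of the conjugates of `ρ`
  and all slopes `v' ≠ 1 / 2` of `π i`: if `A` is ordinary, then the slopes of `ρ` lie in an interval
  of length less than one. So all `ρ` are allowed which are powers of `q`, up to roots of unity, and
  those of `K3` surfaces of height at least three, of abelian varieties with slopes
  different from `0` and `1`, and so on. There is no condition on the fields `ℚ(ρ)`.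
* the Frobenius endomorphism of `X` satisfies on each group of the Chow groups of `A × X` a nonzero
  polynomial with rational coefficients whose roots have the same property. For instance this is so
  if the motive of `X` is built from finite-dimensional motives (Kimura) of smooth projective
  varieties which satisfy the first condition.

**For every `i` the statement `B^i(A × X)` (the cycle map is bijective onto the Galois invariants
of `H^(2 i)`, and the eigenvalue `1` of Frobenius is semisimple) is true if and only if the
statements `B^(i - k)(X)`, `0 ≤ k ≤ dim A`, are true** (`BReduces`). The Chow groups of `A × X` and
the Galois invariants satisfy a Kunneth formula, with finitely many products of divisor classes on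
`A`. No case of the conjectures is assumed. In particular `B^i(A)` holds for all `i` (`X` a point).
The semisimplicity statement of Q2 for `A × X` and all `i` is equivalent to that for `X` and all `i`,
without the second condition (`SemisimpleReduces`).

What is used of `A` are known theorems (`IsAbelian`): `H(A)` is generated by `H^1`, Frobenius is
diagonalizable on `H^1` (Weil), the theorem of Tate on divisors, and the nilpotence of
homologically trivial correspondences (Kimura). The theories relative to `X` are modelled by
`RelData`, with the formal properties in `IsTheory`: degrees, products with classes on `A`,
push-forward to `X`, the projection formula, the operation of the correspondences of `A` and of the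
Frobenius endomorphism of `X`. The group of bidegree `(i, j)` is `H^i(X, j)`, resp.
`H^i(A × X, j)`; the Frobenius endomorphism of `A × X` is the multiplication by `Q ^ j` on the Chow
groups (`IsPure`) and on the Galois invariants of the `ℓ`-adic cohomology groups (`InvN`, `InvM`);
the generalized eigenvectors are in `GenN`, `GenM`.

Relation to other results (starting files). `AllCMTypesTimesOpen`, `AbelianTimesSmooth`,
`NewtonStrata` and `SmallSlopeDeviation` (this problem) are about almost all CM types, almost all
abelian varieties, absolutely irreducible and mutually unrelated fields. The class of `A` here is
different: explicit, for each single abelian variety, without conditions on the Galois groups and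
on the multiplicities of the slopes; and so is the class of `X`, whose fields may be the same.

The proof. Suppose that the product of `ρ` and of some conjugates of the `π i`, no two of them
complex conjugate, is a power of `q`, up to a root of unity. Let `S` be the group of the
automorphisms which fix all elements of `F`. It acts on the conjugates of `E i` through signs:
`h σ = σ` or `h σ` is the complex conjugate of `σ`. We fix one of the conjugates in the relation,
`x = σ (α i)`, and a place where it is not a unit, and take the average of the logarithms of the
relation at this place and its images under `S`, with the sign character of `x`. Only the conjugates
`y = τ (α j)` with the same sign character remain. If `y` is not a unit at the given place either,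
then both `x` and `y` are units except above the same place of `F`; as `S` permutes the places above
it transitively and acts through the same signs, `log |y|` is proportional to `log |x|` at all
places. The factor is rational, so that a power of `y` is a power of `x` or of its conjugate; this
is excluded for `j ≠ i`, and for `j = i` the factor is `± 1` and `τ` is `σ` or its conjugate, because
the powers generate `E i`. So only the difference of the exponents of `x` and its conjugate
remains. It vanishes because the contribution of `ρ` is averaged out (`NotOver`) or is too small
(`SmallerSlopes`). This part is due to helper5 of this team (`OnePlaceOfRealField`,
MP_2a05c8_ag), where it is applied to the Tate conjecture. The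
deduction of the theorem from the statement on relations is the one of the starting files
(`AllCMTypesTimesOpen`): on the generalized eigenspace of the Frobenius endomorphism of `A × X` for
`Q ^ j`, the correspondence on `A` given by the sum of the products of dual classes of divisor
products acts as the identity. So the theory of `A × X` is, on this part, the direct sum of copies
of the one of `X` (Kunneth formula), compatibly with the cycle maps.
-/

set_option autoImplicit false

namespace Pool.Agent.Results.MP_81632f_ag.OnePlaceTimes

open NumberField Polynomial Pool.Agent.KS6_5.SP Pool.Agent.KS6_74.OP Pool.Agent.Y1.CT
  Pool.Agent.Q64.L 

/-- **The statement `B^i` (the cycle map is bijective onto the Frobenius invariants and the eigenvalue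
is semisimple) holds for `A × X` if and only if `B^(i - k)` holds for `X` for all
`0 ≤ k ≤ dim A`**, for the abelian varieties `A` whose Frobenius numbers are supported at one place
of a field `F` containing all the real multiplications, and all smooth `X`, proper or not, whose
Frobenius eigenvalues have smaller slopes or do not generate the fields `E i` over `F`. -/
theorem result :
    (∀ (p : ℕ) [Fact p.Prime] (a : ℕ), 0 < a → ∀ (F : IntermediateField ℚ (AlgebraicClosure ℚ))
      [FiniteDimensional ℚ F] (I : Type) [Fintype I] (E : I → Type)
      [∀ i, Field (E i)] [∀ i, NumberField (E i)] [∀ i, IsCMField (E i)] (π : ∀ i, E i),
      (∀ i, IsWeilOne p a (π i)) → (∀ i, ContainsReal F (E i)) →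
      (∀ i, AtOnePlace p F (angle p a (π i))) → Incommensurable (fun i => angle p a (π i)) →
      ∀ f : I → ℤ[X], (∀ i, IsPolyOf (π i) (f i)) →
      BReduces (ForeignOrSmallRoots p a F π) (p ^ a) f ∧
        SemisimpleReduces (ForeignOrSmallRoots p a F π) (p ^ a) f) ∧
    (∀ (p : ℕ) [Fact p.Prime] (F : IntermediateField ℚ (AlgebraicClosure ℚ))
      [FiniteDimensional ℚ F], (∃! P : Ideal (𝓞 F), P.IsPrime ∧ (p : 𝓞 F) ∈ P) →
      ∀ (E : Type) [Field E] (α : E), AtOnePlace p F α) := by
  refine ⟨?_, ?_⟩
  · intro p _ a ha F _ I _ E _ _ _ π hW hR hP hI f hf
    have hq : 1 < p ^ a := Nat.one_lt_pow ha.ne' (Fact.out : p.Prime).one_lt
    have hG := good_onePlace (F := F) ⟨hW, hR, hP, hI⟩ hf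
    exact ⟨bReduces hq hG, semisimpleReduces hq hG⟩
  · intro p _ F _ h E _ α
    exact atOnePlace_of_unique F h α

end Pool.Agent.Results.MP_81632f_ag.OnePlaceTimes
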